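import Mathlib

/-!
# Carathéodory's inequality for the derivatives of functions with nonnegative real part
-/

set_option autoImplicit false
open Complex Set Filter Topology Metric MeasureTheory
open scoped Nat

namespace Pool.Agent.X151.MC

theorem cara_aux {q : ℂ → ℂ} {c : ℂ} {ρ : ℝ} (hρ : 0 < ρ) (hq : DiffContOnCl ℂ q (ball c ρ))
    (hre : ∀ t ∈ closedBall c ρ, 0 ≤ (q t).re) {k : ℕ} (hk : 1 ≤ k) :
    ‖iteratedDeriv k q c‖ * ρ ^ k ≤ 2 * k ! * (q c).re := by
  have hcont : ContinuousOn q (closedBall c ρ) := by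
    have := hq.continuousOn
    rwa [closure_ball c hρ.ne'] at this
  have hcm : ∀ θ, circleMap c ρ θ ∈ closedBall c ρ := fun θ => circleMap_mem_closedBall c hρ.le θ
  have hqc : Continuous fun θ => q (circleMap c ρ θ) :=
    hcont.comp_continuous (continuous_circleMap c ρ) hcm
  have he0 : ∀ θ, circleMap 0 ρ θ ≠ 0 := fun θ => circleMap_ne_center hρ.ne'
  have hec : Continuous fun θ => circleMap 0 ρ θ := continuous_circleMap 0 ρ
  have hic : ∀ m : ℕ, Continuous fun θ => (circleMap 0 ρ θ)⁻¹ ^ m := fun m =>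
    (hec.inv₀ he0).pow m
  have hsub : ∀ θ, circleMap c ρ θ - c = circleMap 0 ρ θ := fun θ => circleMap_sub_center c ρ θ
  have hA : ∀ m : ℕ, ∫ θ in (0:ℝ)..2 * Real.pi, (circleMap 0 ρ θ)⁻¹ ^ m * q (circleMap c ρ θ) =
      2 * Real.pi / m ! * iteratedDeriv m q c := by
    intro m
    have h1 := hq.circleIntegral_one_div_sub_center_pow_smul hρ m
    unfold circleIntegral at h1
    have h2 : ∀ θ, deriv (circleMap c ρ) θ • (1 / (circleMap c ρ θ - c) ^ (m + 1)) •
        q (circleMap c ρ θ) = I * ((circleMap 0 ρ θ)⁻¹ ^ m * q (circleMap c ρ θ)) := by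
      intro θ
      rw [deriv_circleMap, hsub, smul_eq_mul, smul_eq_mul, inv_pow, pow_succ]
      have := he0 θ
      field_simp
    simp only [h2] at h1
    rw [intervalIntegral.integral_const_mul, smul_eq_mul] at h1
    apply mul_left_cancel₀ I_ne_zero
    rw [h1]
    ring
  have hB : ∫ θ in (0:ℝ)..2 * Real.pi, (circleMap 0 ρ θ) ^ k * q (circleMap c ρ θ) = 0 := by
    have h0 : DiffContOnCl ℂ (fun z => (z - c) ^ (k - 1) * q z) (ball c ρ) := by
      have h1 : Differentiable ℂ fun z : ℂ => (z - c) ^ (k - 1) := by fun_prop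
      exact (h1.diffContOnCl (s := ball c ρ)).smul hq
    have h1 : ∮ z in C(c, ρ), (z - c) ^ (k - 1) * q z = 0 := by
      apply circleIntegral_eq_zero_of_differentiable_on_off_countable hρ.le Set.countable_empty
      · have := h0.continuousOn
        rwa [closure_ball c hρ.ne'] at this
      · intro z hz
        exact h0.differentiableAt isOpen_ball hz.1
    unfold circleIntegral at h1
    have h2 : ∀ θ, deriv (circleMap c ρ) θ • ((circleMap c ρ θ - c) ^ (k - 1) *
        q (circleMap c ρ θ)) = I * ((circleMap 0 ρ θ) ^ k * q (circleMap c ρ θ)) := by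
      intro θ
      rw [deriv_circleMap, hsub, smul_eq_mul]
      have h3 : circleMap 0 ρ θ ^ k = circleMap 0 ρ θ ^ (k - 1) * circleMap 0 ρ θ := by
        rw [← pow_succ, Nat.sub_add_cancel hk]
      rw [h3]
      ring
    simp only [h2] at h1
    rw [intervalIntegral.integral_const_mul] at h1
    exact (mul_eq_zero.mp h1).resolve_left I_ne_zero
  -- the conjugate
  have hB' : ∫ θ in (0:ℝ)..2 * Real.pi, (circleMap 0 ρ θ)⁻¹ ^ k *
      (starRingEnd ℂ) (q (circleMap c ρ θ)) = 0 := by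
    have h1 : ∫ θ in (0:ℝ)..2 * Real.pi, (starRingEnd ℂ) ((circleMap 0 ρ θ) ^ k *
        q (circleMap c ρ θ)) = 0 := by
      have h5 := (Complex.conjCLE : ℂ →L[ℝ] ℂ).intervalIntegral_comp_comm
        (((hec.pow k).mul hqc).intervalIntegrable (μ := volume) 0 (2 * Real.pi))
      have h6 := congrArg (starRingEnd ℂ) hB
      rw [map_zero] at h6
      exact h5.trans h6
    have h2 : ∀ θ, (starRingEnd ℂ) ((circleMap 0 ρ θ) ^ k * q (circleMap c ρ θ)) =
        (ρ : ℂ) ^ (2 * k) * ((circleMap 0 ρ θ)⁻¹ ^ k * (starRingEnd ℂ) (q (circleMap c ρ θ))) := by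
      intro θ
      have h3 : (starRingEnd ℂ) (circleMap 0 ρ θ) = (ρ : ℂ) ^ 2 * (circleMap 0 ρ θ)⁻¹ := by
        have h4 : circleMap 0 ρ θ * (starRingEnd ℂ) (circleMap 0 ρ θ) = (ρ : ℂ) ^ 2 := by
          rw [Complex.mul_conj, Complex.normSq_eq_norm_sq]
          have h5 : ‖circleMap 0 ρ θ‖ = ρ := by
            rw [norm_circleMap_zero, abs_of_pos hρ]
          rw [h5]
          push_cast
          ring
        rw [← h4]
        have := he0 θ
        field_simp
      rw [map_mul, map_pow, h3, mul_pow, ← pow_mul]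
      ring
    simp only [h2] at h1
    rw [intervalIntegral.integral_const_mul] at h1
    refine (mul_eq_zero.mp h1).resolve_left (pow_ne_zero _ ?_)
    exact_mod_cast hρ.ne'
  have hsum : ∫ θ in (0:ℝ)..2 * Real.pi, (circleMap 0 ρ θ)⁻¹ ^ k *
      ((2 * (q (circleMap c ρ θ)).re : ℝ) : ℂ) = 2 * Real.pi / k ! * iteratedDeriv k q c := by
    have i1 : IntervalIntegrable (fun θ => (circleMap 0 ρ θ)⁻¹ ^ k * q (circleMap c ρ θ)) volume 0
        (2 * Real.pi) := ((hic k).mul hqc).intervalIntegrable _ _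
    have i2 : IntervalIntegrable (fun θ => (circleMap 0 ρ θ)⁻¹ ^ k *
        (starRingEnd ℂ) (q (circleMap c ρ θ))) volume 0 (2 * Real.pi) :=
      ((hic k).mul (continuous_conj.comp hqc)).intervalIntegrable _ _
    have h1 := intervalIntegral.integral_add i1 i2
    rw [hB', hA k, add_zero] at h1
    rw [← h1]
    congr 1
    funext θ
    rw [← mul_add, Complex.add_conj]
  have hmean : ∫ θ in (0:ℝ)..2 * Real.pi, (q (circleMap c ρ θ)).re = 2 * Real.pi * (q c).re := by
    have h1 := hA 0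
    simp only [pow_zero, one_mul, Nat.factorial_zero, Nat.cast_one, div_one,
      iteratedDeriv_zero] at h1
    have h2 := congrArg Complex.re h1
    have h3 : (2 * (Real.pi : ℂ) * q c).re = 2 * Real.pi * (q c).re := by
      have : (2 * (Real.pi : ℂ)) = ((2 * Real.pi : ℝ) : ℂ) := by push_cast; ring
      rw [this, Complex.re_ofReal_mul]
    rw [h3] at h2
    rw [← h2]
    exact Complex.reCLM.intervalIntegral_comp_comm (hqc.intervalIntegrable 0 (2 * Real.pi))
  have hnorm : ‖∫ θ in (0:ℝ)..2 * Real.pi, (circleMap 0 ρ θ)⁻¹ ^ k *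
      ((2 * (q (circleMap c ρ θ)).re : ℝ) : ℂ)‖ ≤ (ρ ^ k)⁻¹ * (2 * (2 * Real.pi * (q c).re)) := by
    calc ‖∫ θ in (0:ℝ)..2 * Real.pi, (circleMap 0 ρ θ)⁻¹ ^ k *
        ((2 * (q (circleMap c ρ θ)).re : ℝ) : ℂ)‖
        ≤ ∫ θ in (0:ℝ)..2 * Real.pi, ‖(circleMap 0 ρ θ)⁻¹ ^ k *
          ((2 * (q (circleMap c ρ θ)).re : ℝ) : ℂ)‖ :=
          intervalIntegral.norm_integral_le_integral_norm (by positivity)
      _ = ∫ θ in (0:ℝ)..2 * Real.pi, (ρ ^ k)⁻¹ * (2 * (q (circleMap c ρ θ)).re) := by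
          congr 1
          funext θ
          rw [norm_mul, norm_pow, norm_inv, norm_circleMap_zero, abs_of_pos hρ, inv_pow,
            Complex.norm_real, Real.norm_eq_abs, abs_of_nonneg]
          have := hre _ (hcm θ)
          linarith
      _ = _ := by
          rw [intervalIntegral.integral_const_mul, intervalIntegral.integral_const_mul, hmean]
  rw [hsum, norm_mul] at hnorm
  have hpi : 0 < Real.pi := Real.pi_pos
  have hf : (0 : ℝ) < k ! := by exact_mod_cast Nat.factorial_pos k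
  have h2 : ‖(2 * (Real.pi : ℂ) / (k ! : ℂ))‖ = 2 * Real.pi / k ! := by
    rw [norm_div, norm_mul, Complex.norm_natCast, Complex.norm_real, Real.norm_eq_abs,
      abs_of_pos hpi]
    simp
  rw [h2] at hnorm
  have hρk : 0 < ρ ^ k := by positivity
  rw [inv_mul_eq_div, le_div_iff₀ hρk, div_mul_eq_mul_div, div_mul_eq_mul_div,
    div_le_iff₀ hf] at hnorm
  nlinarith

/-- Carathéodory's inequality. -/
theorem cara {q : ℂ → ℂ} {c : ℂ} {r : ℝ} (hr : 0 < r) (hq : DifferentiableOn ℂ q (ball c r))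
    (hre : ∀ t ∈ ball c r, 0 ≤ (q t).re) {k : ℕ} (hk : 1 ≤ k) :
    ‖iteratedDeriv k q c‖ * r ^ k ≤ 2 * k ! * (q c).re := by
  have h1 : ∀ᶠ ρ in 𝓝[<] r, ‖iteratedDeriv k q c‖ * ρ ^ k ≤ 2 * k ! * (q c).re := by
    filter_upwards [Ioo_mem_nhdsLT hr] with ρ hρ
    have hsub : closedBall c ρ ⊆ ball c r := closedBall_subset_ball hρ.2
    refine cara_aux hρ.1 ?_ (fun t ht => hre t (hsub ht)) hk
    refine DifferentiableOn.diffContOnCl ?_
    rw [closure_ball c hρ.1.ne']
    exact hq.mono hsub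
  have h2 : Tendsto (fun ρ : ℝ => ‖iteratedDeriv k q c‖ * ρ ^ k) (𝓝[<] r)
      (𝓝 (‖iteratedDeriv k q c‖ * r ^ k)) := by
    have h3 : Continuous fun ρ : ℝ => ‖iteratedDeriv k q c‖ * ρ ^ k := by fun_prop
    exact (h3.tendsto r).mono_left nhdsWithin_le_nhds
  exact le_of_tendsto h2 h1

end Pool.Agent.X151.MC
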