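import Mathlib
import Pool.Agent.X151.MU.Six

/-!
# Cross-ratios of moving points
-/

set_option autoImplicit false
open Complex Set Filter Topology Metric

namespace Pool.Agent.X151.MC

open Pool.Agent.H712R2 Pool.Agent.H713R2 Pool.Agent.H713R2.AR
open Pool.Agent.W746.LD (orb S hasDerivAt_orb orb_succ orb_zero P_eq_orb)
open Pool.Agent.TH363.QI (C₁ C₁_nonneg landau nopre D cyc)
open Pool.Agent.X151.MU

variable {n : ℕ}

/-- The four point inequality. -/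
def F4 (r : ℝ) (x x' y y' z z' w w' : ℂ) : Prop :=
  r * ‖(x' - z') / (x - z) - (y' - z') / (y - z) - (x' - w') / (x - w) + (y' - w') / (y - w)‖ ≤
    4 * (C₁ + |Real.log ‖(x - z) * (y - w) / ((y - z) * (x - w))‖|)

/-- The three point inequality. -/
def F3 (r : ℝ) (x x' y y' z z' : ℂ) : Prop :=
  r * ‖(x' - z') / (x - z) - (y' - z') / (y - z)‖ ≤
    4 * (C₁ + |Real.log ‖(x - z) / (y - z)‖|)

theorem four_points {c : ℂ} {r : ℝ} (hr : 0 < r) {x y z w : ℂ → ℂ} {x' y' z' w' : ℂ}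
    (hx : DifferentiableOn ℂ x (ball c r)) (hy : DifferentiableOn ℂ y (ball c r))
    (hz : DifferentiableOn ℂ z (ball c r)) (hw : DifferentiableOn ℂ w (ball c r))
    (hxy : ∀ t ∈ ball c r, x t ≠ y t) (hxz : ∀ t ∈ ball c r, x t ≠ z t)
    (hxw : ∀ t ∈ ball c r, x t ≠ w t) (hyz : ∀ t ∈ ball c r, y t ≠ z t)
    (hyw : ∀ t ∈ ball c r, y t ≠ w t) (hzw : ∀ t ∈ ball c r, z t ≠ w t)
    (hx' : HasDerivAt x x' c) (hy' : HasDerivAt y y' c) (hz' : HasDerivAt z z' c)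
    (hw' : HasDerivAt w w' c) : F4 r (x c) x' (y c) y' (z c) z' (w c) w' := by
  have hc : c ∈ ball c r := mem_ball_self hr
  set h : ℂ → ℂ := fun t => (x t - z t) * (y t - w t) / ((y t - z t) * (x t - w t)) with hh
  have hden : ∀ t ∈ ball c r, (y t - z t) * (x t - w t) ≠ 0 := fun t ht =>
    mul_ne_zero (sub_ne_zero.mpr (hyz t ht)) (sub_ne_zero.mpr (hxw t ht))
  have hd : DifferentiableOn ℂ h (ball c r) :=
    ((hx.sub hz).mul (hy.sub hw)).div ((hy.sub hz).mul (hx.sub hw)) hden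
  have h0 : ∀ t ∈ ball c r, h t ≠ 0 := fun t ht =>
    div_ne_zero (mul_ne_zero (sub_ne_zero.mpr (hxz t ht)) (sub_ne_zero.mpr (hyw t ht))) (hden t ht)
  have h1 : ∀ t ∈ ball c r, h t ≠ 1 := by
    intro t ht he
    rw [hh] at he
    simp only at he
    rw [div_eq_one_iff_eq (hden t ht)] at he
    have h2 : (x t - y t) * (z t - w t) = 0 := by linear_combination he
    exact mul_ne_zero (sub_ne_zero.mpr (hxy t ht)) (sub_ne_zero.mpr (hzw t ht)) h2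
  have hder : HasDerivAt h
      ((((x' - z') * (y c - w c) + (x c - z c) * (y' - w')) * ((y c - z c) * (x c - w c)) -
        (x c - z c) * (y c - w c) * ((y' - z') * (x c - w c) + (y c - z c) * (x' - w'))) /
        ((y c - z c) * (x c - w c)) ^ 2) c :=
    ((hx'.sub hz').mul (hy'.sub hw')).div ((hy'.sub hz').mul (hx'.sub hw')) (hden c hc)
  have hL := landau hr hd h0 h1 hder
  have e1 := sub_ne_zero.mpr (hxz c hc)
  have e2 := sub_ne_zero.mpr (hyw c hc)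
  have e3 := sub_ne_zero.mpr (hyz c hc)
  have e4 := sub_ne_zero.mpr (hxw c hc)
  have hq : (((x' - z') * (y c - w c) + (x c - z c) * (y' - w')) * ((y c - z c) * (x c - w c)) -
        (x c - z c) * (y c - w c) * ((y' - z') * (x c - w c) + (y c - z c) * (x' - w'))) /
        ((y c - z c) * (x c - w c)) ^ 2 / h c =
      (x' - z') / (x c - z c) - (y' - z') / (y c - z c) - (x' - w') / (x c - w c) +
        (y' - w') / (y c - w c) := by
    rw [hh]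
    field_simp
    ring
  rw [hq, mul_comm] at hL
  exact hL

theorem three_points {c : ℂ} {r : ℝ} (hr : 0 < r) {x y z : ℂ → ℂ} {x' y' z' : ℂ}
    (hx : DifferentiableOn ℂ x (ball c r)) (hy : DifferentiableOn ℂ y (ball c r))
    (hz : DifferentiableOn ℂ z (ball c r))
    (hxy : ∀ t ∈ ball c r, x t ≠ y t) (hxz : ∀ t ∈ ball c r, x t ≠ z t)
    (hyz : ∀ t ∈ ball c r, y t ≠ z t)
    (hx' : HasDerivAt x x' c) (hy' : HasDerivAt y y' c) (hz' : HasDerivAt z z' c) :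
    F3 r (x c) x' (y c) y' (z c) z' := by
  have hc : c ∈ ball c r := mem_ball_self hr
  set h : ℂ → ℂ := fun t => (x t - z t) / (y t - z t) with hh
  have hden : ∀ t ∈ ball c r, y t - z t ≠ 0 := fun t ht => sub_ne_zero.mpr (hyz t ht)
  have hd : DifferentiableOn ℂ h (ball c r) := (hx.sub hz).div (hy.sub hz) hden
  have h0 : ∀ t ∈ ball c r, h t ≠ 0 := fun t ht =>
    div_ne_zero (sub_ne_zero.mpr (hxz t ht)) (hden t ht)
  have h1 : ∀ t ∈ ball c r, h t ≠ 1 := by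
    intro t ht he
    rw [hh] at he
    simp only at he
    rw [div_eq_one_iff_eq (hden t ht)] at he
    exact hxy t ht (by linear_combination he)
  have hder : HasDerivAt h
      (((x' - z') * (y c - z c) - (x c - z c) * (y' - z')) / (y c - z c) ^ 2) c :=
    (hx'.sub hz').div (hy'.sub hz') (hden c hc)
  have hL := landau hr hd h0 h1 hder
  have e1 := sub_ne_zero.mpr (hxz c hc)
  have e3 := sub_ne_zero.mpr (hyz c hc)
  have hq : ((x' - z') * (y c - z c) - (x c - z c) * (y' - z')) / (y c - z c) ^ 2 / h c =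
      (x' - z') / (x c - z c) - (y' - z') / (y c - z c) := by
    rw [hh]
    field_simp
  rw [hq, mul_comm] at hL
  exact hL

/-- The moving points at the level `j`. -/
def Mj (n : ℕ) (c : ℂ) (j : ℕ) (x v : ℂ) : Prop :=
  (x = 0 ∧ v = 0) ∨ (∃ N : ℕ, x = orb n c c N ∧ v = D n c N) ∨
    (2 < ‖orb n c x j‖ ∧ v = 1 - S n c x (j + 1))

theorem exists_fam (hn : 2 ≤ n) {c : ℂ} {r : ℝ} (hr : 0 < r)
    (hno : ∀ t ∈ ball c r, ¬ ∃ m z, N62a1eb23.IsAttractingCycle (fun z => z ^ n + t) m z)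
    (hsub : ball c r ⊆ N62a1eb23.multibrotSet n) (j : ℕ) :
    ∃ B : ℂ → ℂ → ℂ, ∀ x v, Mj n c j x v → DifferentiableOn ℂ (B x) (ball c r) ∧ B x c = x ∧
      HasDerivAt (B x) v c ∧ ∀ x' v', Mj n c j x' v' → x' ≠ x → ∀ t ∈ ball c r,
        B x' t ≠ B x t := by
  classical
  obtain ⟨A, hA⟩ := exists_motion hn hr hsub j
  have hcb : c ∈ ball c r := mem_ball_self hr
  have hcr : ∀ t ∈ ball c r, ∀ N, orb n t t N ≠ 0 := by
    intro t ht N
    rw [← P_eq_orb hn]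
    exact Pool.Agent.H713R2.AR.P_ne_zero hn (hno t ht) (by omega)
  have hz0 : ∀ t ∈ ball c r, ∀ k, ‖orb n t 0 k‖ ≤ 2 := fun t ht k =>
    (mem_multibrot_iff hn t).mp (hsub ht) k
  have hcv : ∀ t ∈ ball c r, ∀ N k, ‖orb n t (orb n t t N) k‖ ≤ 2 := fun t ht N k => by
    rw [← Pool.Agent.W746.LD.orb_add]
    exact Pool.Agent.W746.LD.mem_multibrot_orb hn (hsub ht) _
  have hpre : ∀ t ∈ ball c r, ∀ N M, orb n t t N = orb n t t M → N = M := by
    intro t ht N M h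
    rcases lt_trichotomy M N with h1 | h1 | h1
    · have := nopre hn hno hsub ht (l := M) (p := N - M) (by omega)
      rw [show M + (N - M) = N by omega] at this
      exact absurd h this
    · exact h1.symm
    · have := nopre hn hno hsub ht (l := N) (p := M - N) (by omega)
      rw [show N + (M - N) = M by omega] at this
      exact absurd h.symm this
  set B : ℂ → ℂ → ℂ := fun x => if x = 0 then fun _ => 0 else
    if h : ∃ N, x = orb n c c N then fun t => orb n t t h.choose else A x with hB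
  have hB0 : B 0 = fun _ => 0 := by rw [hB]; simp
  have hB1 : ∀ N, B (orb n c c N) = fun t => orb n t t N := by
    intro N
    have h1 : ∃ M, orb n c c N = orb n c c M := ⟨N, rfl⟩
    have h2 : h1.choose = N := (hpre c hcb _ _ h1.choose_spec).symm
    rw [hB]
    simp only
    rw [if_neg (hcr c hcb N), dif_pos h1]
    funext t
    rw [h2]
  have hB2 : ∀ x, 2 < ‖orb n c x j‖ → B x = A x := by
    intro x hx
    have h1 : x ≠ 0 := by
      rintro rfl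
      linarith [hz0 c hcb j]
    have h2 : ¬ ∃ N, x = orb n c c N := by
      rintro ⟨N, rfl⟩
      linarith [hcv c hcb N j]
    rw [hB]
    simp only
    rw [if_neg h1, dif_neg h2]
  refine ⟨B, ?_⟩
  intro x v hx
  have hfirst : DifferentiableOn ℂ (B x) (ball c r) ∧ B x c = x ∧ HasDerivAt (B x) v c := by
    rcases hx with ⟨rfl, rfl⟩ | ⟨N, rfl, rfl⟩ | ⟨h1, rfl⟩
    · rw [hB0]
      exact ⟨differentiableOn_const _, rfl, hasDerivAt_const c 0⟩
    · rw [hB1]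
      exact ⟨(Pool.Agent.W746.LD.diff_param N).differentiableOn, rfl,
        Pool.Agent.TH363.QI.hasDerivAt_D n c N⟩
    · rw [hB2 x h1]
      obtain ⟨h2, h3, h4, -⟩ := hA x h1
      exact ⟨h2, h3, deriv_motion hn hr hsub h1 h2 h3 h4⟩
  refine ⟨hfirst.1, hfirst.2.1, hfirst.2.2, ?_⟩
  -- the pairs
  have e01 : ∀ N, ∀ t ∈ ball c r, B (orb n c c N) t ≠ B 0 t := by
    intro N t ht
    rw [hB1, hB0]
    exact hcr t ht N
  have e02 : ∀ b, 2 < ‖orb n c b j‖ → ∀ t ∈ ball c r, B b t ≠ B 0 t := by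
    intro b hb t ht h
    rw [hB2 b hb, hB0] at h
    simp only at h
    have h1 := (hA b hb).2.2.1 t ht
    rw [h] at h1
    have h2 := hz0 t ht j
    rw [h1] at h2
    linarith
  have e12 : ∀ N, ∀ b, 2 < ‖orb n c b j‖ → ∀ t ∈ ball c r, B b t ≠ B (orb n c c N) t := by
    intro N b hb t ht h
    rw [hB2 b hb, hB1] at h
    simp only at h
    have h1 := (hA b hb).2.2.1 t ht
    rw [h] at h1
    have h2 := hcv t ht N j
    rw [h1] at h2
    linarith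
  intro x' v' hx' hne t ht
  rcases hx with ⟨rfl, rfl⟩ | ⟨N, rfl, rfl⟩ | ⟨h1, rfl⟩ <;>
    rcases hx' with ⟨rfl, rfl⟩ | ⟨M, rfl, rfl⟩ | ⟨h1', rfl⟩
  · exact absurd rfl hne
  · exact e01 M t ht
  · exact e02 x' h1' t ht
  · exact (e01 N t ht).symm
  · rw [hB1, hB1]
    intro h
    apply hne
    rw [hpre t ht _ _ h]
  · exact e12 N x' h1' t ht
  · exact (e02 x h1 t ht).symm
  · exact (e12 M x h1 t ht).symm
  · rw [hB2 x h1, hB2 x' h1']
    exact (hA x h1).2.2.2 x' h1' hne t ht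

/-- The moving points of the first kinds. -/
def Mw (n : ℕ) (c x v : ℂ) : Prop :=
  (x = 0 ∧ v = 0) ∨ (∃ N : ℕ, x = orb n c c N ∧ v = D n c N) ∨ (Esc n c x ∧ v = V n c x)

theorem Mw.lim (hn : 2 ≤ n) {c x v : ℂ} (h : Mw n c x v) :
    ∃ u : ℕ → ℂ, Tendsto u atTop (𝓝 v) ∧ ∀ᶠ j in atTop, Mj n c j x (u j) := by
  rcases h with h | h | ⟨h1, h2⟩
  · exact ⟨fun _ => v, tendsto_const_nhds, Eventually.of_forall fun _ => Or.inl h⟩
  · exact ⟨fun _ => v, tendsto_const_nhds, Eventually.of_forall fun _ => Or.inr (Or.inl h)⟩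
  · refine ⟨fun j => 1 - S n c x (j + 1), ?_, ?_⟩
    · rw [h2]
      exact (tendsto_S hn h1).const_sub 1
    · filter_upwards [eventually_big h1 2] with j hj
      exact Or.inr (Or.inr ⟨hj, rfl⟩)

/-- All the moving points. -/
def Ma (n : ℕ) (c x v : ℂ) : Prop := Mw n c x v ∨ Pe n c x v

theorem Ma.lim (hn : 2 ≤ n) {c : ℂ} {r : ℝ} (hr : 0 < r)
    (hno : ∀ t ∈ ball c r, ¬ ∃ m z, N62a1eb23.IsAttractingCycle (fun z => z ^ n + t) m z)
    (hcM : c ∈ N62a1eb23.multibrotSet n) {x v : ℂ} (h : Ma n c x v) :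
    ∃ X U : ℕ → ℂ, Tendsto X atTop (𝓝 x) ∧ Tendsto U atTop (𝓝 v) ∧ ∀ k, Mw n c (X k) (U k) := by
  rcases h with h | ⟨p, hp, h1, h2⟩
  · exact ⟨fun _ => x, fun _ => v, tendsto_const_nhds, tendsto_const_nhds, fun _ => h⟩
  · obtain ⟨b, hb1, -, hb3, hb4⟩ := tendsto_V hn hr hno hcM hp h1
    refine ⟨b, fun k => V n c (b k), hb3, ?_, fun k => Or.inr (Or.inr ⟨hb1 k, rfl⟩)⟩
    rw [h2]
    exact hb4

theorem F4_lim {r : ℝ} {x x' y y' z z' w w' : ℂ} {X X' Y Y' Z Z' W W' : ℕ → ℂ}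
    (hX : Tendsto X atTop (𝓝 x)) (hX' : Tendsto X' atTop (𝓝 x'))
    (hY : Tendsto Y atTop (𝓝 y)) (hY' : Tendsto Y' atTop (𝓝 y'))
    (hZ : Tendsto Z atTop (𝓝 z)) (hZ' : Tendsto Z' atTop (𝓝 z'))
    (hW : Tendsto W atTop (𝓝 w)) (hW' : Tendsto W' atTop (𝓝 w'))
    (hxz : x ≠ z) (hyz : y ≠ z) (hxw : x ≠ w) (hyw : y ≠ w)
    (h : ∀ᶠ k in atTop, F4 r (X k) (X' k) (Y k) (Y' k) (Z k) (Z' k) (W k) (W' k)) :
    F4 r x x' y y' z z' w w' := by
  have e1 := sub_ne_zero.mpr hxz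
  have e2 := sub_ne_zero.mpr hyw
  have e3 := sub_ne_zero.mpr hyz
  have e4 := sub_ne_zero.mpr hxw
  have a1 := (hX'.sub hZ').div (hX.sub hZ) e1
  have a2 := (hY'.sub hZ').div (hY.sub hZ) e3
  have a3 := (hX'.sub hW').div (hX.sub hW) e4
  have a4 := (hY'.sub hW').div (hY.sub hW) e2
  have b1 := ((((a1.sub a2).sub a3).add a4).norm).const_mul r
  have b2 := ((hX.sub hZ).mul (hY.sub hW)).div ((hY.sub hZ).mul (hX.sub hW)) (mul_ne_zero e3 e4)
  have b3 := ((b2.norm.log (norm_ne_zero_iff.mpr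
    (div_ne_zero (mul_ne_zero e1 e2) (mul_ne_zero e3 e4)))).abs.const_add C₁).const_mul 4
  exact le_of_tendsto_of_tendsto b1 b3 h

theorem F3_lim {r : ℝ} {x x' y y' z z' : ℂ} {X X' Y Y' Z Z' : ℕ → ℂ}
    (hX : Tendsto X atTop (𝓝 x)) (hX' : Tendsto X' atTop (𝓝 x'))
    (hY : Tendsto Y atTop (𝓝 y)) (hY' : Tendsto Y' atTop (𝓝 y'))
    (hZ : Tendsto Z atTop (𝓝 z)) (hZ' : Tendsto Z' atTop (𝓝 z'))
    (hxz : x ≠ z) (hyz : y ≠ z)
    (h : ∀ᶠ k in atTop, F3 r (X k) (X' k) (Y k) (Y' k) (Z k) (Z' k)) :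
    F3 r x x' y y' z z' := by
  have e1 := sub_ne_zero.mpr hxz
  have e3 := sub_ne_zero.mpr hyz
  have a1 := (hX'.sub hZ').div (hX.sub hZ) e1
  have a2 := (hY'.sub hZ').div (hY.sub hZ) e3
  have b1 := ((a1.sub a2).norm).const_mul r
  have b2 := (hX.sub hZ).div (hY.sub hZ) e3
  have b3 := ((b2.norm.log (norm_ne_zero_iff.mpr (div_ne_zero e1 e3))).abs.const_add C₁).const_mul 4
  exact le_of_tendsto_of_tendsto b1 b3 h

theorem F4_w (hn : 2 ≤ n) {c : ℂ} {r : ℝ} (hr : 0 < r)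
    (hno : ∀ t ∈ ball c r, ¬ ∃ m z, N62a1eb23.IsAttractingCycle (fun z => z ^ n + t) m z)
    (hsub : ball c r ⊆ N62a1eb23.multibrotSet n) {x x' y y' z z' w w' : ℂ}
    (hx : Mw n c x x') (hy : Mw n c y y') (hz : Mw n c z z') (hw : Mw n c w w')
    (hxy : x ≠ y) (hxz : x ≠ z) (hxw : x ≠ w) (hyz : y ≠ z) (hyw : y ≠ w) (hzw : z ≠ w) :
    F4 r x x' y y' z z' w w' := by
  obtain ⟨X', hX', hX⟩ := hx.lim hn
  obtain ⟨Y', hY', hY⟩ := hy.lim hn
  obtain ⟨Z', hZ', hZ⟩ := hz.lim hn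
  obtain ⟨W', hW', hW⟩ := hw.lim hn
  refine F4_lim tendsto_const_nhds hX' tendsto_const_nhds hY' tendsto_const_nhds hZ'
    tendsto_const_nhds hW' hxz hyz hxw hyw ?_
  filter_upwards [hX, hY, hZ, hW] with j h1 h2 h3 h4
  obtain ⟨B, hB⟩ := exists_fam hn hr hno hsub j
  obtain ⟨a1, a2, a3, a4⟩ := hB _ _ h1
  obtain ⟨b1, b2, b3, b4⟩ := hB _ _ h2
  obtain ⟨c1, c2, c3, c4⟩ := hB _ _ h3
  obtain ⟨d1, d2, d3, d4⟩ := hB _ _ h4
  have := four_points hr a1 b1 c1 d1 (b4 _ _ h1 hxy) (c4 _ _ h1 hxz) (d4 _ _ h1 hxw)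
    (c4 _ _ h2 hyz) (d4 _ _ h2 hyw) (d4 _ _ h3 hzw) a3 b3 c3 d3
  rwa [a2, b2, c2, d2] at this

theorem F3_w (hn : 2 ≤ n) {c : ℂ} {r : ℝ} (hr : 0 < r)
    (hno : ∀ t ∈ ball c r, ¬ ∃ m z, N62a1eb23.IsAttractingCycle (fun z => z ^ n + t) m z)
    (hsub : ball c r ⊆ N62a1eb23.multibrotSet n) {x x' y y' z z' : ℂ}
    (hx : Mw n c x x') (hy : Mw n c y y') (hz : Mw n c z z')
    (hxy : x ≠ y) (hxz : x ≠ z) (hyz : y ≠ z) : F3 r x x' y y' z z' := by
  obtain ⟨X', hX', hX⟩ := hx.lim hn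
  obtain ⟨Y', hY', hY⟩ := hy.lim hn
  obtain ⟨Z', hZ', hZ⟩ := hz.lim hn
  refine F3_lim tendsto_const_nhds hX' tendsto_const_nhds hY' tendsto_const_nhds hZ'
    hxz hyz ?_
  filter_upwards [hX, hY, hZ] with j h1 h2 h3
  obtain ⟨B, hB⟩ := exists_fam hn hr hno hsub j
  obtain ⟨a1, a2, a3, a4⟩ := hB _ _ h1
  obtain ⟨b1, b2, b3, b4⟩ := hB _ _ h2
  obtain ⟨c1, c2, c3, c4⟩ := hB _ _ h3
  have := three_points hr a1 b1 c1 (b4 _ _ h1 hxy) (c4 _ _ h1 hxz) (c4 _ _ h2 hyz) a3 b3 c3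
  rwa [a2, b2, c2] at this

theorem F4_all (hn : 2 ≤ n) {c : ℂ} {r : ℝ} (hr : 0 < r)
    (hno : ∀ t ∈ ball c r, ¬ ∃ m z, N62a1eb23.IsAttractingCycle (fun z => z ^ n + t) m z)
    (hcM : c ∈ N62a1eb23.multibrotSet n) {x x' y y' z z' w w' : ℂ}
    (hx : Ma n c x x') (hy : Ma n c y y') (hz : Ma n c z z') (hw : Ma n c w w')
    (hxy : x ≠ y) (hxz : x ≠ z) (hxw : x ≠ w) (hyz : y ≠ z) (hyw : y ≠ w) (hzw : z ≠ w) :
    F4 r x x' y y' z z' w w' := by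
  have hsub := ball_subset hn hr hcM hno
  obtain ⟨X, X', hX, hX', h1⟩ := hx.lim hn hr hno hcM
  obtain ⟨Y, Y', hY, hY', h2⟩ := hy.lim hn hr hno hcM
  obtain ⟨Z, Z', hZ, hZ', h3⟩ := hz.lim hn hr hno hcM
  obtain ⟨W, W', hW, hW', h4⟩ := hw.lim hn hr hno hcM
  refine F4_lim hX hX' hY hY' hZ hZ' hW hW' hxz hyz hxw hyw ?_
  have g : ∀ {A B : ℕ → ℂ} {a b : ℂ}, Tendsto A atTop (𝓝 a) → Tendsto B atTop (𝓝 b) → a ≠ b →
      ∀ᶠ k in atTop, A k ≠ B k := by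
    intro A B a b hA hB hab
    filter_upwards [(hA.sub hB).eventually_ne (sub_ne_zero.mpr hab)] with k hk
    exact sub_ne_zero.mp hk
  filter_upwards [g hX hY hxy, g hX hZ hxz, g hX hW hxw, g hY hZ hyz, g hY hW hyw, g hZ hW hzw]
    with k k1 k2 k3 k4 k5 k6
  exact F4_w hn hr hno hsub (h1 k) (h2 k) (h3 k) (h4 k) k1 k2 k3 k4 k5 k6

theorem F3_ne (hn : 2 ≤ n) {c : ℂ} {r : ℝ} (hr : 0 < r)
    (hno : ∀ t ∈ ball c r, ¬ ∃ m z, N62a1eb23.IsAttractingCycle (fun z => z ^ n + t) m z)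
    (hcM : c ∈ N62a1eb23.multibrotSet n) {x x' y y' z z' : ℂ}
    (hx : Ma n c x x') (hy : Ma n c y y') (hz : Ma n c z z')
    (hxy : x ≠ y) (hxz : x ≠ z) (hyz : y ≠ z) : F3 r x x' y y' z z' := by
  have hsub := ball_subset hn hr hcM hno
  obtain ⟨X, X', hX, hX', h1⟩ := hx.lim hn hr hno hcM
  obtain ⟨Y, Y', hY, hY', h2⟩ := hy.lim hn hr hno hcM
  obtain ⟨Z, Z', hZ, hZ', h3⟩ := hz.lim hn hr hno hcM
  refine F3_lim hX hX' hY hY' hZ hZ' hxz hyz ?_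
  have g : ∀ {A B : ℕ → ℂ} {a b : ℂ}, Tendsto A atTop (𝓝 a) → Tendsto B atTop (𝓝 b) → a ≠ b →
      ∀ᶠ k in atTop, A k ≠ B k := by
    intro A B a b hA hB hab
    filter_upwards [(hA.sub hB).eventually_ne (sub_ne_zero.mpr hab)] with k hk
    exact sub_ne_zero.mp hk
  filter_upwards [g hX hY hxy, g hX hZ hxz, g hY hZ hyz] with k k1 k2 k4
  exact F3_w hn hr hno hsub (h1 k) (h2 k) (h3 k) k1 k2 k4

end Pool.Agent.X151.MC
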