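import Mathlib
import Pool.Agent.X151.MC.Cross
import Pool.Agent.H749R2.Hyp1
import Pool.Agent.TH363.QI.Unc

/-!
# The three point inequality in all degrees
-/

set_option autoImplicit false
open Complex Set Filter Topology Metric

namespace Pool.Agent.X151.MC

open Pool.Agent.H712R2 Pool.Agent.H713R2 Pool.Agent.H713R2.AR
open Pool.Agent.W746.LD (orb S hasDerivAt_orb orb_succ orb_zero P_eq_orb)
open Pool.Agent.TH363.QI (C₁ C₁_nonneg landau nopre D cyc)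
open Pool.Agent.X151.MU

variable {n : ℕ}

theorem Ma.bounded (hn : 2 ≤ n) {c : ℂ} {r : ℝ} (hr : 0 < r)
    (hno : ∀ t ∈ ball c r, ¬ ∃ m z, N62a1eb23.IsAttractingCycle (fun z => z ^ n + t) m z)
    (hcM : c ∈ N62a1eb23.multibrotSet n) {x v : ℂ} (h : Ma n c x v) :
    ‖x‖ ≤ 4 ∨ (Esc n c x ∧ v = V n c x) := by
  rcases h with (⟨rfl, -⟩ | ⟨N, rfl, -⟩ | h) | ⟨p, hp, h1, h2⟩
  · left; simp
  · left; exact (Pool.Agent.W746.LD.mem_multibrot_orb hn hcM N).trans (by norm_num)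
  · right; exact h
  · left
    obtain ⟨b, -, hb2, hb3, -⟩ := tendsto_V hn hr hno hcM hp h1
    exact le_of_tendsto hb3.norm (Eventually.of_forall hb2)

theorem Ma.toMv {c x v : ℂ} (h : Ma n c x v) (hx : ‖x‖ ≤ 4) : Mv n c x v ∨ Pe n c x v := by
  rcases h with (h | h | h) | h
  · exact Or.inl (Or.inl h)
  · exact Or.inl (Or.inr (Or.inl h))
  · exact Or.inl (Or.inr (Or.inr ⟨h.1, hx, h.2⟩))
  · exact Or.inr h

/-- The velocity is unique. -/
theorem Ma.unique (hn : 2 ≤ n) {c : ℂ} {r : ℝ} (hr : 0 < r)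
    (hno : ∀ t ∈ ball c r, ¬ ∃ m z, N62a1eb23.IsAttractingCycle (fun z => z ^ n + t) m z)
    (hcM : c ∈ N62a1eb23.multibrotSet n) {x v w : ℂ} (hv : Ma n c x v) (hw : Ma n c x w) :
    v = w := by
  have h4 : ‖x‖ ≤ 4 → v = w := by
    intro hx
    have h1 := full_ball hn hr hno hcM (hv.toMv hx) (hw.toMv hx)
    unfold Bn at h1
    rw [sub_self, norm_zero, mul_zero, zero_mul] at h1
    have h2 : ‖v - w‖ ≤ 0 := by
      by_contra hcon
      push Not at hcon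
      have := mul_pos hr hcon
      linarith
    exact sub_eq_zero.mp (norm_le_zero_iff.mp h2)
  rcases hv.bounded hn hr hno hcM with h | h
  · exact h4 h
  · rcases hw.bounded hn hr hno hcM with h' | h'
    · exact h4 h'
    · rw [h.2, h'.2]

/-- The three point inequality. -/
theorem F3_all (hn : 2 ≤ n) {c : ℂ} {r : ℝ} (hr : 0 < r)
    (hno : ∀ t ∈ ball c r, ¬ ∃ m z, N62a1eb23.IsAttractingCycle (fun z => z ^ n + t) m z)
    (hcM : c ∈ N62a1eb23.multibrotSet n) {x x' y y' z z' : ℂ}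
    (hx : Ma n c x x') (hy : Ma n c y y') (hz : Ma n c z z')
    (hxz : x ≠ z) (hyz : y ≠ z) : F3 r x x' y y' z z' := by
  by_cases hxy : x = y
  · subst hxy
    have h1 := Ma.unique hn hr hno hcM hx hy
    subst h1
    unfold F3
    rw [sub_self, norm_zero, mul_zero]
    have h2 := C₁_nonneg
    positivity
  · exact F3_ne hn hr hno hcM hx hy hz hxy hxz hyz

theorem crit_ne (hn : 2 ≤ n) {c : ℂ}
    (hno : ¬ ∃ m z, N62a1eb23.IsAttractingCycle (fun z => z ^ n + c) m z) (N : ℕ) :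
    orb n c c N ≠ 0 := by
  rw [← P_eq_orb hn]
  exact Pool.Agent.H713R2.AR.P_ne_zero hn hno (by omega)

/-- The image of a moving point. -/
theorem Ma.image (hn : 2 ≤ n) {c : ℂ}
    (hno : ¬ ∃ m z, N62a1eb23.IsAttractingCycle (fun z => z ^ n + c) m z)
    (hcM : c ∈ N62a1eb23.multibrotSet n) {x v : ℂ} (h : Ma n c x v)
    (hl : ∀ p, 1 ≤ p → orb n c x p = x → Pool.Agent.W746.LD.P n c x p ≠ 1) :
    Ma n c (x ^ n + c) (n * x ^ (n - 1) * v + 1) := by
  rcases h with (⟨rfl, rfl⟩ | ⟨N, rfl, rfl⟩ | ⟨h1, h2⟩) | ⟨p, hp, h1, h2⟩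
  · refine Or.inl (Or.inr (Or.inl ⟨0, ?_, ?_⟩))
    · rw [orb_zero, zero_pow (by omega), zero_add]
    · rw [mul_zero, zero_add]; rfl
  · refine Or.inl (Or.inr (Or.inl ⟨N + 1, (orb_succ c N).symm, ?_⟩))
    rw [Pool.Agent.TH363.QI.D_succ]
  · refine Or.inl (Or.inr (Or.inr ⟨?_, ?_⟩))
    · have := esc_orb h1 1
      rwa [Pool.Agent.W746.LD.orb_one] at this
    · have h3 := V_orb hn hcM h1 1
      rw [Pool.Agent.W746.LD.orb_one, Pool.Agent.W746.LD.S_one, Pool.Agent.W746.LD.P_succ,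
        Pool.Agent.W746.LD.P_zero, orb_zero] at h3
      rw [h3, h2]
      ring
  · right
    have hx : ∀ i, orb n c x i ≠ 0 := per_ne_zero hn hno hp h1
    have hP : ∀ k, Pool.Agent.W746.LD.P n c x k ≠ 0 := fun k =>
      Pool.Agent.W746.LD.P_ne_zero hn fun i _ => hx i
    have ho : orb n c (x ^ n + c) p = x ^ n + c := by
      rw [← Pool.Agent.W746.LD.orb_one, ← Pool.Agent.W746.LD.orb_add, add_comm,
        Pool.Agent.W746.LD.orb_add, h1]
    refine ⟨p, hp, ho, ?_⟩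
    set L := Pool.Agent.W746.LD.P n c x p with hL
    set q := Pool.Agent.W746.LD.P n c x 1 with hq
    have hq2 : q = n * x ^ (n - 1) := by
      rw [hq, Pool.Agent.W746.LD.P_succ, Pool.Agent.W746.LD.P_zero, orb_zero, one_mul]
    have hP1 : Pool.Agent.W746.LD.P n c x (p + 1) = L * q := by
      rw [Pool.Agent.W746.LD.P_add, h1]
    have hP2 : Pool.Agent.W746.LD.P n c x (p + 1) =
        q * Pool.Agent.W746.LD.P n c (x ^ n + c) p := by
      rw [add_comm, Pool.Agent.W746.LD.P_add, Pool.Agent.W746.LD.orb_one]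
    have hLf : Pool.Agent.W746.LD.P n c (x ^ n + c) p = L := by
      have h3 : q * Pool.Agent.W746.LD.P n c (x ^ n + c) p = q * L := by
        rw [← hP2, hP1, mul_comm]
      exact mul_left_cancel₀ (hP 1) h3
    have hS1 : S n c x (p + 2) = S n c x (p + 1) + (L * q)⁻¹ := by
      rw [show p + 2 = p + 1 + 1 by rfl, Pool.Agent.W746.LD.S_succ, hP1]
    have hS2 : S n c x (1 + (p + 1)) = 1 + q⁻¹ * S n c (x ^ n + c) (p + 1) := by
      rw [Pool.Agent.W746.LD.S_add, Pool.Agent.W746.LD.S_one, Pool.Agent.W746.LD.orb_one]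
    rw [show 1 + (p + 1) = p + 2 by omega, hS1] at hS2
    have hL0 : L ≠ 0 := hP p
    have hq0 : q ≠ 0 := hP 1
    have hS3 : S n c (x ^ n + c) (p + 1) = q * (S n c x (p + 1) - 1) + L⁻¹ := by
      have h3 : q⁻¹ * S n c (x ^ n + c) (p + 1) = S n c x (p + 1) - 1 + (L * q)⁻¹ := by
        linear_combination -hS2
      have h4 : S n c (x ^ n + c) (p + 1) = q * (q⁻¹ * S n c (x ^ n + c) (p + 1)) := by
        field_simp
      rw [h4, h3]
      field_simp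
    have hL1 : 1 - L ≠ 0 := by
      intro h
      exact hl p hp h1 (by rw [← hL]; linear_combination -h)
    rw [hLf, hS3, h2, ← hq2]
    field_simp
    ring

theorem Ma.image' (hn : 2 ≤ n) {c : ℂ} {r : ℝ} (hr : 0 < r)
    (hno : ∀ t ∈ ball c r, ¬ ∃ m z, N62a1eb23.IsAttractingCycle (fun z => z ^ n + t) m z)
    (hcM : c ∈ N62a1eb23.multibrotSet n) {x v : ℂ} (h : Ma n c x v) :
    Ma n c (x ^ n + c) (n * x ^ (n - 1) * v + 1) := by
  refine h.image hn (hno c (mem_ball_self hr)) hcM ?_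
  intro p hp h1 h2
  have h3 := cyc hn hno (mem_ball_self hr) hp h1
  rw [h2, norm_one] at h3
  linarith

theorem div_alg (hn : 2 ≤ n) {c x v : ℂ} (hx : x ≠ 0) :
    ((n * x ^ (n - 1) * v + 1) - 1) / ((x ^ n + c) - c) = n * (v / x) := by
  have h1 : x ^ n = x ^ (n - 1) * x := by
    rw [← pow_succ, Nat.sub_add_cancel (by omega)]
  rw [add_sub_cancel_right, add_sub_cancel_right, h1]
  have h2 : x ^ (n - 1) ≠ 0 := pow_ne_zero _ hx
  field_simp

/-- Two points, in all degrees. -/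
theorem pair_deg (hn : 2 ≤ n) {c : ℂ} {r : ℝ} (hr : 0 < r)
    (hno : ∀ t ∈ ball c r, ¬ ∃ m z, N62a1eb23.IsAttractingCycle (fun z => z ^ n + t) m z)
    (hcM : c ∈ N62a1eb23.multibrotSet n) {x x' y y' : ℂ}
    (hx : Ma n c x x') (hy : Ma n c y y') (hx0 : x ≠ 0) (hy0 : y ≠ 0) :
    n * r * ‖x' / x - y' / y‖ ≤ 4 * (C₁ + n * |Real.log (‖x‖ / ‖y‖)|) := by
  have hcc : Ma n c c 1 := Or.inl (Or.inr (Or.inl ⟨0, rfl, rfl⟩))
  have h1 := F3_all hn hr hno hcM (hx.image' hn hr hno hcM) (hy.image' hn hr hno hcM) hcc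
    (by rw [Ne, add_eq_right]; exact pow_ne_zero _ hx0)
    (by rw [Ne, add_eq_right]; exact pow_ne_zero _ hy0)
  unfold F3 at h1
  rw [div_alg hn hx0, div_alg hn hy0, add_sub_cancel_right, add_sub_cancel_right, ← mul_sub,
    norm_mul, Complex.norm_natCast, ← div_pow, norm_pow, Real.log_pow, norm_div, abs_mul,
    abs_of_nonneg (Nat.cast_nonneg n)] at h1
  calc n * r * ‖x' / x - y' / y‖ = r * (n * ‖x' / x - y' / y‖) := by ring
    _ ≤ _ := h1

theorem zero_ne (hn : 2 ≤ n) {c : ℂ}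
    (hno : ¬ ∃ m z, N62a1eb23.IsAttractingCycle (fun z => z ^ n + c) m z) : c ≠ 0 := by
  have := crit_ne hn hno 0
  rwa [orb_zero] at this

/-- One point, in all degrees. -/
theorem single_deg (hn : 2 ≤ n) {c : ℂ} {r : ℝ} (hr : 0 < r)
    (hno : ∀ t ∈ ball c r, ¬ ∃ m z, N62a1eb23.IsAttractingCycle (fun z => z ^ n + t) m z)
    (hcM : c ∈ N62a1eb23.multibrotSet n) {x x' : ℂ} (hx : Ma n c x x') (hx0 : x ≠ 0) :
    r * ‖n * (x' / x) - 1 / c‖ ≤ 4 * (C₁ + |Real.log (‖x‖ ^ n / ‖c‖)|) := by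
  have hcc : Ma n c c 1 := Or.inl (Or.inr (Or.inl ⟨0, rfl, rfl⟩))
  have h00 : Ma n c 0 0 := Or.inl (Or.inl ⟨rfl, rfl⟩)
  have h1 := F3_all hn hr hno hcM (hx.image' hn hr hno hcM) h00 hcc
    (by rw [Ne, add_eq_right]; exact pow_ne_zero _ hx0)
    (zero_ne hn (hno c (mem_ball_self hr))).symm
  unfold F3 at h1
  rw [div_alg hn hx0, add_sub_cancel_right, zero_sub, zero_sub, neg_div_neg_eq, norm_div, norm_neg,
    norm_pow] at h1
  exact h1

/-- The parameters without attracting cycles are not close to `0`. -/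
theorem norm_lower (hn : 2 ≤ n) {c : ℂ}
    (hno : ¬ ∃ m z, N62a1eb23.IsAttractingCycle (fun z => z ^ n + c) m z) : 1 / 6 ≤ ‖c‖ := by
  by_contra hcon
  push Not at hcon
  apply hno
  suffices h : Real.exp 1 * (n * ‖c‖ ^ (n - 1)) ≤ 1 by
    obtain ⟨z, hz⟩ := Pool.Agent.H749R2.Hyp.P1 hn h
    exact ⟨1, z, hz⟩
  have h1 : (n : ℝ) ≤ 2 ^ (n - 1) := Pool.Agent.TH363.QI.nat_le_two_pow hn
  have h2 : (n : ℝ) * ‖c‖ ^ (n - 1) ≤ (1 / 3 : ℝ) ^ (n - 1) := by
    calc (n : ℝ) * ‖c‖ ^ (n - 1) ≤ 2 ^ (n - 1) * (1 / 6 : ℝ) ^ (n - 1) := by gcongr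
      _ = (1 / 3 : ℝ) ^ (n - 1) := by rw [← mul_pow]; norm_num
  have h3 : (1 / 3 : ℝ) ^ (n - 1) ≤ 1 / 3 := by
    calc (1 / 3 : ℝ) ^ (n - 1) ≤ (1 / 3 : ℝ) ^ 1 :=
          pow_le_pow_of_le_one (by norm_num) (by norm_num) (by omega)
      _ = 1 / 3 := pow_one _
  have h4 : Real.exp 1 < 3 := by
    have := Real.exp_one_lt_d9
    linarith
  have h5 : 0 < Real.exp 1 := Real.exp_pos 1
  calc Real.exp 1 * (n * ‖c‖ ^ (n - 1)) ≤ Real.exp 1 * (1 / 3) := by
        gcongr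
        linarith
    _ ≤ 1 := by linarith

theorem abs_log_le (hn : 2 ≤ n) {c : ℂ} (hcM : c ∈ N62a1eb23.multibrotSet n)
    (hno : ¬ ∃ m z, N62a1eb23.IsAttractingCycle (fun z => z ^ n + c) m z) :
    |Real.log ‖c‖| ≤ 2 := by
  have h1 := norm_lower hn hno
  have h2 := norm_le_two_of_sub hn hcM
  have h0 : 0 < ‖c‖ := by linarith
  have h4 : (2.7 : ℝ) ≤ Real.exp 1 := by
    have := Real.exp_one_gt_d9
    linarith
  have h5 : Real.exp 2 = Real.exp 1 ^ 2 := by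
    rw [← Real.exp_nat_mul]; norm_num
  have h6 : (6 : ℝ) ≤ Real.exp 2 := by
    rw [h5]
    calc (6 : ℝ) ≤ (2.7 : ℝ) ^ 2 := by norm_num
      _ ≤ _ := by gcongr
  rw [abs_le]
  constructor
  · rw [← Real.log_exp (-2)]
    apply Real.log_le_log (Real.exp_pos _)
    rw [Real.exp_neg]
    calc (Real.exp 2)⁻¹ ≤ 6⁻¹ := by gcongr
      _ ≤ ‖c‖ := by linarith
  · rw [← Real.log_exp 2]
    exact Real.log_le_log h0 (by linarith)

/-- One point, in all degrees. -/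
theorem single_deg2 (hn : 2 ≤ n) {c : ℂ} {r : ℝ} (hr : 0 < r)
    (hno : ∀ t ∈ ball c r, ¬ ∃ m z, N62a1eb23.IsAttractingCycle (fun z => z ^ n + t) m z)
    (hcM : c ∈ N62a1eb23.multibrotSet n) {x x' : ℂ} (hx : Ma n c x x') :
    n * r * ‖x'‖ ≤ (4 * C₁ + 9) * ‖x‖ * (1 + n * |Real.log ‖x‖|) := by
  have hc1 := C₁_nonneg
  by_cases hx0 : x = 0
  · have h00 : Ma n c 0 0 := Or.inl (Or.inl ⟨rfl, rfl⟩)
    subst hx0
    have h1 := Ma.unique hn hr hno hcM hx h00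
    rw [h1, norm_zero, mul_zero, mul_zero, zero_mul]
  · have h1 := single_deg hn hr hno hcM hx hx0
    have hnoc := hno c (mem_ball_self hr)
    have hc0 : 0 < ‖c‖ := norm_pos_iff.mpr (zero_ne hn hnoc)
    have hxp : 0 < ‖x‖ := norm_pos_iff.mpr hx0
    have h2 := abs_log_le hn hcM hnoc
    have hrc : r ≤ ‖c‖ := by
      by_contra hcon
      push Not at hcon
      refine hno 0 ?_ (zero_mem_Hy hn)
      rw [mem_ball, dist_comm, dist_zero_right]
      exact hcon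
    have h3 : |Real.log (‖x‖ ^ n / ‖c‖)| ≤ n * |Real.log ‖x‖| + 2 := by
      rw [Real.log_div (by positivity) (by positivity), Real.log_pow]
      refine (abs_sub _ _).trans ?_
      rw [abs_mul, abs_of_nonneg (Nat.cast_nonneg n)]
      linarith
    have h4 : ‖(n : ℂ) * (x' / x)‖ ≤ ‖(n : ℂ) * (x' / x) - 1 / c‖ + ‖1 / c‖ := by
      have := norm_add_le ((n : ℂ) * (x' / x) - 1 / c) (1 / c)
      rwa [sub_add_cancel] at this
    have h5 : r * ‖1 / c‖ ≤ 1 := by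
      rw [norm_div, norm_one, mul_one_div, div_le_one hc0]
      exact hrc
    have h6 : r * ‖(n : ℂ) * (x' / x)‖ ≤ 4 * (C₁ + (n * |Real.log ‖x‖| + 2)) + 1 := by
      calc r * ‖(n : ℂ) * (x' / x)‖ ≤ r * (‖(n : ℂ) * (x' / x) - 1 / c‖ + ‖1 / c‖) := by gcongr
        _ = r * ‖(n : ℂ) * (x' / x) - 1 / c‖ + r * ‖1 / c‖ := by ring
        _ ≤ 4 * (C₁ + |Real.log (‖x‖ ^ n / ‖c‖)|) + 1 := add_le_add h1 h5
        _ ≤ _ := by gcongr
    rw [norm_mul, Complex.norm_natCast, norm_div] at h6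
    have h7 : n * r * ‖x'‖ = r * (n * (‖x'‖ / ‖x‖)) * ‖x‖ := by field_simp
    rw [h7]
    have h8 : 0 ≤ (n : ℝ) * |Real.log ‖x‖| := by positivity
    calc r * (n * (‖x'‖ / ‖x‖)) * ‖x‖ ≤ (4 * (C₁ + (n * |Real.log ‖x‖| + 2)) + 1) * ‖x‖ := by gcongr
      _ ≤ ((4 * C₁ + 9) * (1 + n * |Real.log ‖x‖|)) * ‖x‖ := by
          gcongr
          nlinarith [mul_nonneg hc1 h8]
      _ = _ := by ring

end Pool.Agent.X151.MC
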