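import Mathlib
import Pool.Agent.X151.MC.Unif
import Pool.Agent.X151.MH.Harn
import Pool.Agent.Helper114.MontelSol

/-!
# The multipliers of the cycles over a ball without attracting cycles
-/

set_option autoImplicit false
open Complex Set Filter Topology Metric

namespace Pool.Agent.X151.MC

open Pool.Agent.H712R2 Pool.Agent.H713R2 Pool.Agent.H713R2.AR
open Pool.Agent.W746.LD (orb S hasDerivAt_orb orb_succ orb_zero P_eq_orb)
open Pool.Agent.TH363.QI (C₁ C₁_nonneg landau nopre D cyc)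
open Pool.Agent.X151.MU

variable {n : ℕ}

/-- The points which do not leave a ball of radius two. -/
theorem per_le_two (hn : 2 ≤ n) {t z : ℂ} (ht : ‖t‖ ≤ 2) {p : ℕ} (hp : 1 ≤ p)
    (hz : orb n t z p = z) (j : ℕ) : ‖orb n t z j‖ ≤ 2 := by
  have hper : ∀ i, orb n t z (i + p) = orb n t z i := by
    intro i
    rw [add_comm, Pool.Agent.W746.LD.orb_add, hz]
  have hper2 : ∀ k i, orb n t z (i + k * p) = orb n t z i := by
    intro k
    induction k with
    | zero => intro i; rw [zero_mul, add_zero]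
    | succ k ih => intro i; rw [show i + (k + 1) * p = (i + k * p) + p by ring, hper, ih]
  by_contra hcon
  push Not at hcon
  set w := orb n t z j with hw
  have hgrow : ∀ k, 1 ≤ k → ‖w‖ < ‖orb n t w k‖ := by
    intro k hk
    induction k, hk using Nat.le_induction with
    | base =>
      rw [Pool.Agent.W746.LD.orb_one]
      have h1 : ‖w‖ ^ 2 ≤ ‖w‖ ^ n := pow_le_pow_right₀ (by linarith) hn
      have h2 := norm_sub_le (w ^ n + t) t
      rw [add_sub_cancel_right, norm_pow] at h2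
      nlinarith
    | succ k hk ih =>
      rw [orb_succ]
      have h1 : ‖orb n t w k‖ ^ 2 ≤ ‖orb n t w k‖ ^ n := pow_le_pow_right₀ (by linarith) hn
      have h2 := norm_sub_le (orb n t w k ^ n + t) t
      rw [add_sub_cancel_right, norm_pow] at h2
      nlinarith
  have h1 := hgrow p hp
  rw [hw, ← Pool.Agent.W746.LD.orb_add, hper] at h1
  exact lt_irrefl _ h1

theorem continuous_orb2' (n p : ℕ) : Continuous fun x : ℂ × ℂ => orb n x.1 x.2 p :=
  Pool.Agent.TH363.QI.continuous_orb2 n p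

theorem diff_comp {c : ℂ} {r : ℝ} {X : ℂ → ℂ} (hX : DifferentiableOn ℂ X (ball c r)) (i : ℕ) :
    DifferentiableOn ℂ (fun t => orb n t (X t) i) (ball c r) := by
  induction i with
  | zero => exact hX
  | succ i ih =>
    have h1 : (fun t => orb n t (X t) (i + 1)) = fun t => orb n t (X t) i ^ n + t := by
      funext t; rw [orb_succ]
    rw [h1]
    exact (ih.pow n).add differentiableOn_id

/-- The periodic points can be followed over the whole ball. -/
theorem exists_branch (hn : 2 ≤ n) {c : ℂ} {r : ℝ} (hr : 0 < r)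
    (hno : ∀ t ∈ ball c r, ¬ ∃ m z, N62a1eb23.IsAttractingCycle (fun z => z ^ n + t) m z)
    (hcM : c ∈ N62a1eb23.multibrotSet n) {a : ℂ} {p : ℕ} (hp : 1 ≤ p) (ha : orb n c a p = a) :
    ∃ X : ℂ → ℂ, DifferentiableOn ℂ X (ball c r) ∧ X c = a ∧
      ∀ t ∈ ball c r, orb n t (X t) p = X t := by
  have hsub := ball_subset hn hr hcM hno
  have hcb : c ∈ ball c r := mem_ball_self hr
  have hbd : ∀ t ∈ ball c r, ‖t‖ ≤ 2 := fun t ht => norm_le_two_of_sub hn (hsub ht)
  obtain ⟨b, hb1, hb2, hb3, -⟩ := tendsto_V hn hr hno hcM hp ha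
  have hex : ∀ k : ℕ, ∃ β : ℂ → ℂ, ∃ j : ℕ, DifferentiableOn ℂ β (ball c r) ∧ β c = b k ∧
      (∀ t ∈ ball c r, ‖β t‖ ≤ 6) ∧ ∀ t ∈ ball c r, 2 < ‖orb n t (β t) j‖ := by
    intro k
    obtain ⟨j, hj⟩ := (eventually_big (hb1 k) 2).exists
    obtain ⟨B, hB⟩ := exists_motion hn hr hsub j
    obtain ⟨h1, h2, h3, -⟩ := hB (b k) hj
    refine ⟨B (b k), j, h1, h2, ?_, ?_⟩
    · intro t ht
      by_contra hcon
      push Not at hcon
      have h4 := (orb_gap hn (hbd c hcb) (hbd t ht) (z := b k) (w := B (b k) t)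
        (by linarith [hb2 k]) hcon.le j).1
      rw [h3 t ht] at h4
      linarith
    · intro t ht
      rw [h3 t ht]
      exact hj
  choose β j hβ1 hβ2 hβ3 hβ4 using hex
  obtain ⟨X, hX1, hX2⟩ := Pool.Agent.Helper114.Montel.montel isOpen_ball β hβ1 6
    (fun k t ht => hβ3 k t ht) (hyperfilter ℕ)
  have hXc : X c = a := by
    have h1 : Tendsto (fun k => β k c) (hyperfilter ℕ : Filter ℕ) (𝓝 (X c)) :=
      hX2.tendsto_at hcb
    have h2 : Tendsto (fun k => β k c) (hyperfilter ℕ : Filter ℕ) (𝓝 a) := by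
      simp only [hβ2]
      exact hb3.mono_left Nat.hyperfilter_le_atTop
    exact tendsto_nhds_unique h1 h2
  -- the differences do not vanish
  set G : ℕ → ℂ → ℂ := fun k t => orb n t (β k t) p - β k t with hG
  have hGd : ∀ k, DifferentiableOn ℂ (G k) (ball c r) := fun k =>
    (diff_comp (hβ1 k) p).sub (hβ1 k)
  obtain ⟨M, hM⟩ : ∃ M : ℝ, ∀ x ∈ closedBall c r ×ˢ closedBall (0 : ℂ) 6,
      ‖orb n x.1 x.2 p - x.2‖ ≤ M :=
    ((isCompact_closedBall c r).prod (isCompact_closedBall (0 : ℂ) 6)).exists_bound_of_continuousOn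
      ((continuous_orb2' n p).sub continuous_snd).continuousOn
  have hGlim : TendstoLocallyUniformlyOn G (fun t => orb n t (X t) p - X t)
      (hyperfilter ℕ : Filter ℕ) (ball c r) := by
    apply Pool.Agent.Helper859.Br.C1.tlu_of_pointwise isOpen_ball (M := M) hGd
    · intro k t ht
      exact hM (t, β k t) ⟨ball_subset_closedBall ht, by
        rw [mem_closedBall, dist_zero_right]; exact hβ3 k t ht⟩
    · intro t ht
      have h1 : Tendsto (fun k => β k t) (hyperfilter ℕ : Filter ℕ) (𝓝 (X t)) := hX2.tendsto_at ht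
      have h2 : Continuous fun z : ℂ => orb n t z p - z := by
        have := (continuous_orb2' n p).comp (by fun_prop : Continuous fun z : ℂ => (t, z))
        exact this.sub continuous_id
      exact (h2.tendsto (X t)).comp h1
  have hne : ∀ k, ∀ t ∈ ball c r, G k t ≠ 0 := by
    intro k t ht h
    have h1 : orb n t (β k t) p = β k t := sub_eq_zero.mp h
    have h2 := per_le_two hn (hbd t ht) hp h1 (j k)
    linarith [hβ4 k t ht]
  have hev := Pool.Agent.Helper859.Br.C1.hurwitz isOpen_ball hGd hGlim hne hcb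
    (by rw [hXc, ha, sub_self])
  have hdX : DifferentiableOn ℂ (fun t => orb n t (X t) p - X t) (ball c r) :=
    (diff_comp hX1 p).sub hX1
  have hall := (hdX.analyticOnNhd isOpen_ball).eqOn_zero_of_preconnected_of_eventuallyEq_zero
    (convex_ball c r).isPreconnected hcb hev
  refine ⟨X, hX1, hXc, ?_⟩
  intro t ht
  exact sub_eq_zero.mp (hall ht)

theorem diff_P {c : ℂ} {r : ℝ} {X : ℂ → ℂ} (hX : DifferentiableOn ℂ X (ball c r)) (p : ℕ) :
    DifferentiableOn ℂ (fun t => Pool.Agent.W746.LD.P n t (X t) p) (ball c r) := by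
  unfold Pool.Agent.W746.LD.P
  refine DifferentiableOn.fun_finsetProd fun i _ => ?_
  exact ((diff_comp hX i).pow (n - 1)).const_mul _

/-- Uniqueness of the germ of a repelling periodic point. -/
theorem germ_unique {c : ℂ} {p : ℕ} {X Y : ℂ → ℂ} (hX : ContinuousAt X c) (hY : ContinuousAt Y c)
    (hXY : X c = Y c) (hl : 1 < ‖Pool.Agent.W746.LD.P n c (X c) p‖)
    (h1 : ∀ᶠ t in 𝓝 c, orb n t (X t) p = X t) (h2 : ∀ᶠ t in 𝓝 c, orb n t (Y t) p = Y t) :
    ∀ᶠ t in 𝓝 c, X t = Y t := by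
  obtain ⟨ε, hε, θ, hθ, hexp⟩ := Pool.Agent.TH363.QI.local_exp hl
  have e1 : ∀ᶠ t in 𝓝 c, X t ∈ ball (X c) ε := hX.eventually (ball_mem_nhds _ hε)
  have e2 : ∀ᶠ t in 𝓝 c, Y t ∈ ball (X c) ε := by
    rw [hXY]; exact hY.eventually (ball_mem_nhds _ hε)
  filter_upwards [e1, e2, h1, h2, ball_mem_nhds c hε] with t a1 a2 a3 a4 a5
  have h := hexp t a5 _ a1 _ a2
  rw [a3, a4] at h
  by_contra hne
  have h3 : 0 < ‖X t - Y t‖ := norm_pos_iff.mpr (sub_ne_zero.mpr hne)
  nlinarith

/-- The logarithm of a function of modulus larger than one. -/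
theorem exists_log {c : ℂ} {r : ℝ} (hr : 0 < r) {L : ℂ → ℂ} (hL : DifferentiableOn ℂ L (ball c r))
    (h1 : ∀ t ∈ ball c r, 1 < ‖L t‖) :
    ∃ q : ℂ → ℂ, DifferentiableOn ℂ q (ball c r) ∧ (∀ t ∈ ball c r, Complex.exp (q t) = L t) ∧
      (∀ t ∈ ball c r, 0 < (q t).re) ∧ ∀ t ∈ ball c r, (q t).re = Real.log ‖L t‖ := by
  have h0 : ∀ t ∈ ball c r, L t ≠ 0 := fun t ht h => by
    have := h1 t ht
    rw [h, norm_zero] at this
    linarith
  obtain ⟨q, hq1, -, hq3⟩ := Pool.Agent.H712R2.M.exists_log_ball hr hL h0 (Complex.log (L c))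
    (Complex.exp_log (h0 c (mem_ball_self hr)))
  have hre : ∀ t ∈ ball c r, (q t).re = Real.log ‖L t‖ := by
    intro t ht
    rw [← hq3 t ht, Complex.norm_exp, Real.log_exp]
  refine ⟨q, hq1, hq3, fun t ht => ?_, hre⟩
  rw [hre t ht]
  exact Real.log_pos (h1 t ht)

end Pool.Agent.X151.MC
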