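import Mathlib
import Pool.Agent.X151.MC.Mult
import Pool.Agent.X151.MC.Cara

/-!
# Bounds for the multipliers
-/

set_option autoImplicit false
open Complex Set Filter Topology Metric
open scoped Nat

namespace Pool.Agent.X151.MC

open Pool.Agent.H712R2 Pool.Agent.H713R2 Pool.Agent.H713R2.AR
open Pool.Agent.W746.LD (orb S hasDerivAt_orb orb_succ orb_zero P_eq_orb)
open Pool.Agent.TH363.QI (C₁ C₁_nonneg landau nopre D cyc)
open Pool.Agent.X151.MU

theorem harnack_both {q : ℂ → ℂ} {c : ℂ} {R : ℝ} (hR : 0 < R)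
    (hq : DifferentiableOn ℂ q (ball c R)) (hre : ∀ z ∈ ball c R, 0 < (q z).re) {z : ℂ}
    (hz : z ∈ ball c R) :
    R * |(q c).re - (q z).re| ≤ ‖z - c‖ * ((q z).re + (q c).re) := by
  have hc : c ∈ ball c R := mem_ball_self hR
  set G : ℂ → ℂ := fun z => (q z - q c) / (q z + (starRingEnd ℂ) (q c)) with hG
  have hden : ∀ x ∈ ball c R, q x + (starRingEnd ℂ) (q c) ≠ 0 := by
    intro x hx h
    have h1 := congrArg Complex.re h
    rw [add_re, conj_re, zero_re] at h1
    have h2 := hre x hx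
    have h3 := hre c hc
    linarith
  have hGc : G c = 0 := by simp [hG]
  have hGd : DifferentiableOn ℂ G (ball c R) :=
    (hq.sub_const _).div (hq.add_const _) hden
  have hGm : ∀ x ∈ ball c R, ‖G x‖ ≤ 1 := by
    intro x hx
    rw [hG]
    simp only [norm_div]
    rw [div_le_one (norm_pos_iff.2 (hden x hx))]
    have h1 : ‖q x - q c‖ ^ 2 ≤ ‖q x + (starRingEnd ℂ) (q c)‖ ^ 2 := by
      rw [← Complex.normSq_eq_norm_sq, ← Complex.normSq_eq_norm_sq, Complex.normSq_apply,
        Complex.normSq_apply]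
      simp only [sub_re, sub_im, add_re, add_im, conj_re, conj_im]
      have h2 := hre x hx
      have h3 := hre c hc
      nlinarith [mul_pos h2 h3]
    exact le_of_sq_le_sq h1 (norm_nonneg _)
  have h4 := Complex.dist_le_div_mul_dist_of_mapsTo_ball (f := G) (c := c) (R₁ := R) (R₂ := 1) hGd
    (by
      intro x hx
      rw [hGc, mem_closedBall_zero_iff]
      exact hGm x hx) hz
  rw [hGc, dist_zero_right, dist_eq_norm] at h4
  set s : ℝ := 1 / R * ‖z - c‖ with hs
  have hs0 : 0 ≤ s := by positivity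
  have h5 : ‖q z - q c‖ ≤ s * ‖q z + (starRingEnd ℂ) (q c)‖ := by
    have : q z - q c = G z * (q z + (starRingEnd ℂ) (q c)) := by
      rw [hG]
      simp only
      rw [div_mul_cancel₀ _ (hden z hz)]
    rw [this, norm_mul]
    exact mul_le_mul_of_nonneg_right h4 (norm_nonneg _)
  have hs1 : s < 1 := by
    rw [hs, one_div, inv_mul_lt_iff₀ hR, mul_one]
    rw [mem_ball_iff_norm] at hz
    exact hz
  have h6 : ((q z).re - (q c).re) ^ 2 ≤ (s * ((q z).re + (q c).re)) ^ 2 := by
    have h7 : ‖q z - q c‖ ^ 2 ≤ (s * ‖q z + (starRingEnd ℂ) (q c)‖) ^ 2 :=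
      pow_le_pow_left₀ (norm_nonneg _) h5 2
    rw [mul_pow, ← Complex.normSq_eq_norm_sq, ← Complex.normSq_eq_norm_sq, Complex.normSq_apply,
      Complex.normSq_apply] at h7
    simp only [sub_re, sub_im, add_re, add_im, conj_re, conj_im] at h7
    have h8 : s ^ 2 ≤ 1 := by nlinarith
    have h9 : 0 ≤ ((q z).im - (q c).im) ^ 2 := sq_nonneg _
    nlinarith [mul_le_mul_of_nonneg_right h8 h9]
  have h7 : |(q c).re - (q z).re| ≤ s * ((q z).re + (q c).re) := by
    have h2 := hre z hz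
    have h3 := hre c hc
    have h8 : |(q c).re - (q z).re| ≤ |s * ((q z).re + (q c).re)| := by
      rw [abs_sub_comm]
      exact sq_le_sq.mp h6
    rwa [abs_of_nonneg (a := s * ((q z).re + (q c).re)) (by positivity)] at h8
  calc R * |(q c).re - (q z).re| ≤ R * (s * ((q z).re + (q c).re)) :=
        mul_le_mul_of_nonneg_left h7 hR.le
    _ = ‖z - c‖ * ((q z).re + (q c).re) := by rw [hs]; field_simp

variable {n : ℕ}

/-- The germ of a periodic point and its multiplier. -/
theorem germ_mult (hn : 2 ≤ n) {c : ℂ} {r : ℝ} (hr : 0 < r)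
    (hno : ∀ t ∈ ball c r, ¬ ∃ m z, N62a1eb23.IsAttractingCycle (fun z => z ^ n + t) m z)
    (hcM : c ∈ N62a1eb23.multibrotSet n) {a : ℂ} {p : ℕ} (hp : 1 ≤ p) (ha : orb n c a p = a)
    {Y : ℂ → ℂ} (hY : ContinuousAt Y c) (hYc : Y c = a) (hYp : ∀ᶠ t in 𝓝 c, orb n t (Y t) p = Y t)
    (k : ℕ) :
    r ^ (k + 1) * ‖iteratedDeriv k (logDeriv fun t => Pool.Agent.W746.LD.P n t (Y t) p) c‖ ≤
      2 * (k + 1) ! * Real.log ‖Pool.Agent.W746.LD.P n c a p‖ := by
  obtain ⟨X, hX1, hX2, hX3⟩ := exists_branch hn hr hno hcM hp ha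
  have hcb : c ∈ ball c r := mem_ball_self hr
  have hnc : ball c r ∈ 𝓝 c := ball_mem_nhds c hr
  have hXev : ∀ᶠ t in 𝓝 c, orb n t (X t) p = X t := by
    filter_upwards [hnc] with t ht using hX3 t ht
  have hXa : ContinuousAt X c := (hX1.differentiableAt hnc).continuousAt
  have hl : 1 < ‖Pool.Agent.W746.LD.P n c a p‖ := cyc hn hno hcb hp ha
  have heq : ∀ᶠ t in 𝓝 c, Y t = X t :=
    germ_unique hY hXa (by rw [hYc, hX2]) (by rw [hYc]; exact hl) hYp hXev
  obtain ⟨q, hq1, hq2, hq3, hq4⟩ := exists_log hr (diff_P hX1 p)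
    (fun t ht => cyc hn hno ht hp (hX3 t ht))
  have h1 := cara hr hq1 (fun t ht => (hq3 t ht).le) (k := k + 1) (by omega)
  rw [hq4 c hcb, hX2] at h1
  have h2 : ∀ᶠ t in 𝓝 c, deriv q t =
      logDeriv (fun t => Pool.Agent.W746.LD.P n t (Y t) p) t := by
    filter_upwards [hnc, eventually_eventually_nhds.mpr heq] with t ht ht2
    have h3 : (fun t => Pool.Agent.W746.LD.P n t (Y t) p) =ᶠ[𝓝 t] fun s => Complex.exp (q s) := by
      filter_upwards [ht2, isOpen_ball.mem_nhds ht] with s hs hs2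
      rw [hs, hq2 s hs2]
    have h4 : HasDerivAt q (deriv q t) t :=
      (hq1.differentiableAt (isOpen_ball.mem_nhds ht)).hasDerivAt
    rw [logDeriv_apply, h3.deriv_eq, h3.eq_of_nhds, h4.cexp.deriv,
      mul_div_cancel_left₀ _ (Complex.exp_ne_zero _)]
  have h3 : iteratedDeriv (k + 1) q c =
      iteratedDeriv k (logDeriv fun t => Pool.Agent.W746.LD.P n t (Y t) p) c := by
    rw [iteratedDeriv_succ']
    exact Filter.EventuallyEq.iteratedDeriv_eq k h2
  rw [← h3, mul_comm]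
  exact h1

/-- The multipliers over the ball. -/
theorem branch_harnack (hn : 2 ≤ n) {c : ℂ} {r : ℝ} (hr : 0 < r)
    (hno : ∀ t ∈ ball c r, ¬ ∃ m z, N62a1eb23.IsAttractingCycle (fun z => z ^ n + t) m z)
    (hcM : c ∈ N62a1eb23.multibrotSet n) {a : ℂ} {p : ℕ} (hp : 1 ≤ p) (ha : orb n c a p = a) :
    ∃ X : ℂ → ℂ, X c = a ∧ DifferentiableOn ℂ X (ball c r) ∧
      ∀ t ∈ ball c r, orb n t (X t) p = X t ∧ 1 < ‖Pool.Agent.W746.LD.P n t (X t) p‖ ∧
        (r - ‖t - c‖) * Real.log ‖Pool.Agent.W746.LD.P n c a p‖ ≤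
          (r + ‖t - c‖) * Real.log ‖Pool.Agent.W746.LD.P n t (X t) p‖ ∧
        (r - ‖t - c‖) * Real.log ‖Pool.Agent.W746.LD.P n t (X t) p‖ ≤
          (r + ‖t - c‖) * Real.log ‖Pool.Agent.W746.LD.P n c a p‖ := by
  obtain ⟨X, hX1, hX2, hX3⟩ := exists_branch hn hr hno hcM hp ha
  have hcb : c ∈ ball c r := mem_ball_self hr
  obtain ⟨q, hq1, hq2, hq3, hq4⟩ := exists_log hr (diff_P hX1 p)
    (fun t ht => cyc hn hno ht hp (hX3 t ht))
  refine ⟨X, hX2, hX1, fun t ht => ⟨hX3 t ht, cyc hn hno ht hp (hX3 t ht), ?_, ?_⟩⟩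
  · have h1 := harnack_both hr hq1 hq3 ht
    have h2 := le_abs_self ((q c).re - (q t).re)
    have h3 := mul_le_mul_of_nonneg_left h2 hr.le
    rw [hq4 c hcb, hq4 t ht, hX2] at h1 h3
    linarith
  · have h1 := harnack_both hr hq1 hq3 ht
    have h2 := neg_le_abs ((q c).re - (q t).re)
    have h3 := mul_le_mul_of_nonneg_left h2 hr.le
    rw [hq4 c hcb, hq4 t ht, hX2] at h1 h3
    linarith

/-- The explicit formula. -/
theorem explicit (hn : 2 ≤ n) {c : ℂ} {r : ℝ} (hr : 0 < r)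
    (hno : ∀ t ∈ ball c r, ¬ ∃ m z, N62a1eb23.IsAttractingCycle (fun z => z ^ n + t) m z)
    (hcM : c ∈ N62a1eb23.multibrotSet n) {a : ℂ} {p : ℕ} (hp : 1 ≤ p) (ha : orb n c a p = a) :
    r * ((n - 1) * ‖∑ i ∈ Finset.range p,
      deriv (fun t => orb n t (orb n c a i) p) c / (1 - Pool.Agent.W746.LD.P n c a p) /
        orb n c a i‖) ≤ 2 * Real.log ‖Pool.Agent.W746.LD.P n c a p‖ := by
  obtain ⟨X, hX1, hX2, hX3⟩ := exists_branch hn hr hno hcM hp ha
  have hcb : c ∈ ball c r := mem_ball_self hr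
  have hnc : ball c r ∈ 𝓝 c := ball_mem_nhds c hr
  have hXa : ContinuousAt X c := (hX1.differentiableAt hnc).continuousAt
  have hXev : ∀ᶠ t in 𝓝 c, orb n t (X t) p = X t := by
    filter_upwards [hnc] with t ht using hX3 t ht
  have h1 := germ_mult hn hr hno hcM hp ha hXa hX2 hXev 0
  rw [iteratedDeriv_zero, zero_add, pow_one, Nat.factorial_one, Nat.cast_one, mul_one] at h1
  have hl : 1 < ‖Pool.Agent.W746.LD.P n c a p‖ := cyc hn hno hcb hp ha
  have hx : ∀ i, orb n c a i ≠ 0 := per_ne_zero hn (hno c hcb) hp ha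
  -- all the points of the orbit
  have hxi : ∀ i, HasDerivAt (fun t => orb n t (X t) i)
      (deriv (fun t => orb n t (orb n c a i) p) c / (1 - Pool.Agent.W746.LD.P n c a p)) c := by
    intro i
    set β : ℂ → ℂ := fun t => orb n t (X t) i with hβ
    have hβd : HasDerivAt β (deriv β c) c :=
      ((diff_comp hX1 i).differentiableAt hnc).hasDerivAt
    have hβc : β c = orb n c a i := by rw [hβ]; simp only; rw [hX2]
    have hPn : ∀ m ≤ p, Pool.Agent.W746.LD.P n c (orb n c a i) m ≠ 0 := fun m _ =>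
      Pool.Agent.W746.LD.P_ne_zero hn fun l _ => by
        rw [← Pool.Agent.W746.LD.orb_add]; exact hx _
    have e1 := hasDerivAt_moving hβd hβc p hPn
    have e2 : (fun t => orb n t (β t) p) =ᶠ[𝓝 c] β := by
      filter_upwards [hXev] with t ht
      rw [hβ]
      simp only
      rw [← Pool.Agent.W746.LD.orb_add, add_comm, Pool.Agent.W746.LD.orb_add, ht]
    have e3 := (e1.congr_of_eventuallyEq e2.symm).unique hβd
    have e4 := (hasDerivAt_moving (hasDerivAt_const c (orb n c a i)) rfl p hPn).deriv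
    have e5 : Pool.Agent.W746.LD.P n c (orb n c a i) p = Pool.Agent.W746.LD.P n c a p := by
      have g1 : Pool.Agent.W746.LD.P n c a (i + p) =
          Pool.Agent.W746.LD.P n c a i * Pool.Agent.W746.LD.P n c (orb n c a i) p :=
        Pool.Agent.W746.LD.P_add _ _ _
      have g2 : Pool.Agent.W746.LD.P n c a (p + i) =
          Pool.Agent.W746.LD.P n c a p * Pool.Agent.W746.LD.P n c a i := by
        rw [Pool.Agent.W746.LD.P_add, ha]
      rw [add_comm] at g1
      have g3 : Pool.Agent.W746.LD.P n c a i ≠ 0 :=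
        Pool.Agent.W746.LD.P_ne_zero hn fun l _ => hx l
      apply mul_left_cancel₀ g3
      rw [← g1, g2, mul_comm]
    have e6 : 1 - Pool.Agent.W746.LD.P n c a p ≠ 0 := by
      intro h
      have : Pool.Agent.W746.LD.P n c a p = 1 := by linear_combination -h
      rw [this, norm_one] at hl
      linarith
    have e7 : deriv β c = deriv (fun t => orb n t (orb n c a i) p) c /
        (1 - Pool.Agent.W746.LD.P n c a p) := by
      rw [e4, eq_div_iff e6, zero_add]
      rw [e5] at e3 ⊢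
      linear_combination -e3
    rw [← e7]
    exact hβd
  have h2 : logDeriv (fun t => Pool.Agent.W746.LD.P n t (X t) p) c =
      (n - 1) * ∑ i ∈ Finset.range p,
        deriv (fun t => orb n t (orb n c a i) p) c / (1 - Pool.Agent.W746.LD.P n c a p) /
          orb n c a i := by
    obtain ⟨v, hv⟩ : ∃ v : ℕ → ℂ, ∀ i, deriv (fun t => orb n t (orb n c a i) p) c /
      (1 - Pool.Agent.W746.LD.P n c a p) = v i := ⟨_, fun i => rfl⟩
    simp only [hv] at hxi ⊢
    unfold Pool.Agent.W746.LD.P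
    rw [logDeriv_prod]
    · rw [Finset.mul_sum]
      refine Finset.sum_congr rfl fun i _ => ?_
      have e1 : HasDerivAt (fun t => (n : ℂ) * orb n t (X t) i ^ (n - 1)) _ c :=
        ((hxi i).pow (n - 1)).const_mul (n : ℂ)
      rw [logDeriv_apply, e1.deriv, hX2]
      have hn0 : (n : ℂ) ≠ 0 := by
        have : n ≠ 0 := by omega
        exact_mod_cast this
      obtain ⟨m, rfl⟩ : ∃ m, n = m + 2 := ⟨n - 2, by omega⟩
      have hxi0 := hx i
      have e2 : m + 2 - 1 = m + 1 := rfl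
      rw [e2, Nat.add_sub_cancel]
      have hpow : orb (m + 2) c a i ^ (m + 1) = orb (m + 2) c a i ^ m * orb (m + 2) c a i :=
        pow_succ _ _
      have hpm : orb (m + 2) c a i ^ m ≠ 0 := pow_ne_zero _ hxi0
      rw [hpow]
      push_cast at hn0 ⊢
      field_simp
      ring
    · intro i _
      rw [hX2]
      refine mul_ne_zero ?_ (pow_ne_zero _ (hx i))
      have : n ≠ 0 := by omega
      exact_mod_cast this
    · intro i _
      exact (((hxi i).pow (n - 1)).const_mul (n : ℂ)).differentiableAt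
  rw [h2, norm_mul] at h1
  have h3 : ‖((n : ℂ) - 1)‖ = n - 1 := by
    have : ((n : ℂ) - 1) = ((n - 1 : ℝ) : ℂ) := by push_cast; ring
    rw [this, Complex.norm_real, Real.norm_eq_abs, abs_of_nonneg]
    have : (2 : ℝ) ≤ n := by exact_mod_cast hn
    linarith
  rw [h3] at h1
  exact h1

end Pool.Agent.X151.MC
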